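import Pool.Agent.H354.BG.Stm

set_option autoImplicit false

/-! Project BG: admissibility of block line syllables is decidable. -/

namespace Pool.Agent.H746.BG.ADM2

open Pool.Agent.H354.BG
open Pool.Agent.H482R3.EA (W inv ev PP xx evF cond1 cond2 Syl gOf Sys St Near InD Adm Act)
open Pool.Agent.H482R3.EB (tot wp alt rels AR gR TR Tame Symm alt_length)
open Pool.Agent.H325R.EB (ADM2_comp ADM2_int ADM2_split ADM2_append)

variable (D : Dat) (U : Finset (Fin D.r)) (b : Fin D.r)

/-- a Boolean version of `okO` -/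
def okB (s : Option (Sy D)) : Bool :=
  Option.casesOn s true (fun a => Sum.casesOn a (fun x => decide (D.β x.2.1 = b))
    (fun a' => Sum.casesOn a' (fun _ => true) (fun x => decide (okL D U b x.2.1 x.2.2.1))))

lemma okB_prim : Primrec (okB D U b) := by
  unfold okB
  have hβ : Primrec (fun v : Fin D.n => decide (D.β v = b)) := Primrec.dom_finite _
  have hL : Primrec (fun q : Fin D.n × Fin D.n => decide (okL D U b q.1 q.2)) :=
    Primrec.dom_finite _
  refine Primrec.option_casesOn Primrec.id (Primrec.const true) ?_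
  refine Primrec.sumCasesOn Primrec.snd ?_ ?_
  · exact hβ.comp (Primrec.fst.comp (Primrec.snd.comp Primrec.snd))
  · refine Primrec.sumCasesOn Primrec.snd ?_ ?_
    · exact Primrec.const true
    · exact hL.comp (Primrec.pair (Primrec.fst.comp (Primrec.snd.comp Primrec.snd))
        (Primrec.fst.comp (Primrec.snd.comp (Primrec.snd.comp Primrec.snd))))

lemma okO_comp : ComputablePred (okO D U b) := by
  refine ComputablePred.computable_iff.2 ⟨okB D U b, (okB_prim D U b).to_comp, ?_⟩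
  funext s
  rcases s with _ | (x | (x | x))
  · simp [okO, okB]
  · simp [okO, okB, okS]
  · simp [okO, okB, okS]
  · simp [okO, okB, okS]

/-- the data -/
abbrev Xd : Type := Option (Sy D) × (W (Fin D.n) × W (Fin D.n))

theorem t_ADM2X (hbas : S_BASX) (hn : S_NEARX) : S_ADM2X := by
  intro D U b hb hU hWb hR
  have hS := Pool.Agent.H482R3.EB.Asm.bs
  obtain ⟨-, -, bwp, -, bwn, -, -⟩ := hbas D
  obtain ⟨n1, n2, -⟩ := hn D U b hb hU hR
  -- words
  have hwp : ∀ v : Fin D.n, Computable (fun z : ℕ × ℕ => wp v ((z.1 : ℤ) - (z.2 : ℤ))) := by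
    intro v
    have h1 : Computable (fun z : ℕ × ℕ => (v, z)) := (Computable.const v).pair Computable.id
    have h2 := Computable.comp bwp h1
    exact h2
  have hwn : ∀ v : Fin D.n, Computable (fun y : W (Fin D.n) =>
      wp v (-(eg D (D.β v) (gEl D y)))) := by
    intro v
    have h1 : Computable (fun y : W (Fin D.n) => (v, y)) := (Computable.const v).pair Computable.id
    have h2 := Computable.comp bwn h1
    exact h2
  -- the state predicates
  have q0 : ComputablePred (fun p : Xd D => okO D U b p.1) :=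
    ADM2_comp (okO_comp D U b) Computable.fst
  have q1 : ComputablePred (fun p : Xd D => okO D U b p.1 ∧ InDB D U b p.2.1 p.1) :=
    ADM2_comp (f := fun p : Xd D => (p.2.1, p.1)) n2
      ((Computable.fst.comp Computable.snd).pair Computable.fst)
  have q2 : ∀ v : Fin D.n, ComputablePred (fun p : Xd D =>
      okO D U b p.1 ∧ D.β v = b ∧ NearW D U b p.2.1 v p.1) := fun v =>
    ADM2_comp (f := fun p : Xd D => ((p.2.1, v), p.1)) n1
      (((Computable.fst.comp Computable.snd).pair (Computable.const v)).pair Computable.fst)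
  have hy : Computable (fun p : Xd D => p.2.2) := Computable.snd.comp Computable.snd
  have hlen : Computable (fun p : Xd D => p.2.2.length) :=
    Primrec.list_length.to_comp.comp hy
  have hF : ComputablePred (fun _ : Xd D => False) :=
    ComputablePred.computable_iff.2 ⟨fun _ => false, Computable.const false, by funext; simp⟩
  -- one exponent
  have q3 : ∀ v : Fin D.n, ComputablePred (fun p : Xd D =>
      D.β v = b ∧ ∃ i : ℤ, rho D {b} (gEl D p.2.2) = gR D.m v ^ i) := by
    intro v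
    by_cases hv : D.β v = b
    · have h1 : ComputablePred (fun p : Xd D =>
          rho D {b} (gEl D (p.2.2 ++ wp v (-(eg D (D.β v) (gEl D p.2.2))))) = 1) :=
        ADM2_comp (f := fun p : Xd D => p.2.2 ++ wp v (-(eg D (D.β v) (gEl D p.2.2)))) hWb
          (ADM2_append hy ((hwn v).comp hy))
      refine h1.of_eq fun p => ?_
      have hvb : D.β v ∈ ({b} : Finset (Fin D.r)) := Finset.mem_singleton.2 hv
      rw [gEl_append, gEl_wp, map_mul, rho_zpow_in D hvb, zpow_neg, mul_inv_eq_one]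
      constructor
      · intro h
        exact ⟨hv, _, h⟩
      · rintro ⟨-, i, h⟩
        have h2 := congrArg (eg D (D.β v)) h
        rw [eg_gR_zpow, eg_rho, if_pos hvb] at h2
        rw [h, h2]
    · refine hF.of_eq fun p => ?_
      simp [hv]
  -- two exponents
  have q4 : ∀ v v' : Fin D.n, ComputablePred (fun p : Xd D =>
      D.β v = b ∧ D.β v' = b ∧
        ∃ i j : ℤ, rho D {b} (gEl D p.2.2) = gR D.m v ^ i * gR D.m v' ^ j) := by
    intro v v'
    by_cases hv : D.β v = b
    · by_cases hv' : D.β v' = b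
      · have hvb : D.β v ∈ ({b} : Finset (Fin D.r)) := Finset.mem_singleton.2 hv
        have hvb' : D.β v' ∈ ({b} : Finset (Fin D.r)) := Finset.mem_singleton.2 hv'
        have key : ∀ (y : W (Fin D.n)) (z z' : ℤ),
            rho D {b} (gEl D (wp v z ++ y ++ wp v' z')) = 1 ↔
              rho D {b} (gEl D y) = gR D.m v ^ (-z) * gR D.m v' ^ (-z') := by
          intro y z z'
          rw [gEl_append, gEl_append, gEl_wp, gEl_wp, map_mul, map_mul, rho_zpow_in D hvb,
            rho_zpow_in D hvb', zpow_neg, zpow_neg, mul_eq_one_iff_eq_inv, ← eq_inv_mul_iff_mul_eq]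
        have h1 : ComputablePred (fun x : (Xd D × (ℕ × ℕ)) × (ℕ × ℕ) =>
            rho D {b} (gEl D (wp v ((x.1.2.1 : ℤ) - (x.1.2.2 : ℤ)) ++ x.1.1.2.2 ++
              wp v' ((x.2.1 : ℤ) - (x.2.2 : ℤ)))) = 1) :=
          ADM2_comp (f := fun x : (Xd D × (ℕ × ℕ)) × (ℕ × ℕ) =>
            wp v ((x.1.2.1 : ℤ) - (x.1.2.2 : ℤ)) ++ x.1.1.2.2 ++
              wp v' ((x.2.1 : ℤ) - (x.2.2 : ℤ))) hWb
            (ADM2_append (ADM2_append ((hwp v).comp (Computable.snd.comp Computable.fst))
              (hy.comp (Computable.fst.comp Computable.fst))) ((hwp v').comp Computable.snd))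
        have h2 := ADM2_int hS (fun x : (Xd D × (ℕ × ℕ)) × (ℕ × ℕ) =>
            rho D {b} (gEl D (wp v ((x.1.2.1 : ℤ) - (x.1.2.2 : ℤ)) ++ x.1.1.2.2 ++
              wp v' ((x.2.1 : ℤ) - (x.2.2 : ℤ)))) = 1)
          (fun x : Xd D × (ℕ × ℕ) => x.1.2.2.length) h1 (hlen.comp Computable.fst)
        refine (ADM2_int hS (fun x : Xd D × (ℕ × ℕ) => ∃ n, n ≤ x.1.2.2.length ∧
          ∃ m, m ≤ x.1.2.2.length ∧ rho D {b} (gEl D (wp v ((x.2.1 : ℤ) - (x.2.2 : ℤ)) ++
            x.1.2.2 ++ wp v' ((n : ℤ) - (m : ℤ)))) = 1)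
          (fun p : Xd D => p.2.2.length) h2 hlen).of_eq fun p => ?_
        constructor
        · rintro ⟨n, -, m, -, n', -, m', -, h⟩
          exact ⟨hv, hv', _, _, (key _ _ _).1 h⟩
        · rintro ⟨-, -, i, j, h⟩
          have h3 : TR D.m (wp v (-i) ++ flt D {b} p.2.2 ++ wp v' (-j)) := by
            show gEl D (wp v (-i) ++ flt D {b} p.2.2 ++ wp v' (-j)) = 1
            rw [gEl_append, gEl_append, gEl_wp, gEl_wp, ← rho_gEl, h]
            group
          obtain ⟨z1, z1', e1, e2, e3⟩ := (Pool.Agent.H482R3.EB.Asm.vbd (Fin D.n) D.m (tame D)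
            (flt D {b} p.2.2)).2 v v' (-i) (-j) h3
          have hl : ((flt D {b} p.2.2).length : ℤ) ≤ (p.2.2.length : ℤ) := by
            exact_mod_cast flt_length D {b} p.2.2
          have e3' : gEl D (wp v z1 ++ flt D {b} p.2.2 ++ wp v' z1') = 1 := e3
          have e4 : rho D {b} (gEl D (wp v z1 ++ p.2.2 ++ wp v' z1')) = 1 := by
            rw [key, rho_gEl]
            rw [gEl_append, gEl_append, gEl_wp, gEl_wp, mul_eq_one_iff_eq_inv,
              ← eq_inv_mul_iff_mul_eq] at e3'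
            rw [e3', zpow_neg, zpow_neg]
          obtain ⟨n, hn, m, hm, hz⟩ := ADM2_split z1 _ (e1.trans hl)
          obtain ⟨n', hn', m', hm', hz'⟩ := ADM2_split z1' _ (e2.trans hl)
          exact ⟨n, hn, m, hm, n', hn', m', hm', by simp only [hz, hz']; exact e4⟩
      · refine hF.of_eq fun p => ?_
        simp [hv']
    · refine hF.of_eq fun p => ?_
      simp [hv]
  -- assembly
  have hand := (Pool.Agent.H482R3.EB.Asm.cp (Xd D) inferInstance D.n).1
  have hor := (Pool.Agent.H482R3.EB.Asm.cp (Xd D) inferInstance D.n).2.1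
  have hall := (Pool.Agent.H482R3.EB.Asm.cp (Xd D) inferInstance D.n).2.2.1
  have hex := (Pool.Agent.H482R3.EB.Asm.cp (Xd D) inferInstance D.n).2.2.2
  have r1 : ComputablePred (fun p : Xd D =>
      (∀ v, ¬ (okO D U b p.1 ∧ D.β v = b ∧ NearW D U b p.2.1 v p.1)) ∧
      ∀ v, ¬ (D.β v = b ∧ ∃ i : ℤ, rho D {b} (gEl D p.2.2) = gR D.m v ^ i)) :=
    hand _ _ (hall _ fun v => (q2 v).not) (hall _ fun v => (q3 v).not)
  have r2 : ComputablePred (fun p : Xd D =>
      ∃ v, (okO D U b p.1 ∧ D.β v = b ∧ NearW D U b p.2.1 v p.1) ∧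
      ∀ v', ¬ (D.β v = b ∧ D.β v' = b ∧
        ∃ i j : ℤ, rho D {b} (gEl D p.2.2) = gR D.m v ^ i * gR D.m v' ^ j)) :=
    hex _ fun v => hand _ _ (q2 v) (hall _ fun v' => (q4 v v').not)
  refine (hand _ _ q0 (hand _ _ q1.not (hor _ _ r1 r2))).of_eq fun p => ?_
  obtain ⟨s, g, y⟩ := p
  constructor
  · rintro ⟨h0, h1, h2⟩
    refine ⟨h0, fun h => h1 ⟨h0, h⟩, ?_⟩
    rcases h2 with ⟨h2, h3⟩ | ⟨v, ⟨-, hv, hn⟩, h4⟩
    · left
      exact ⟨fun v hv h => h2 v ⟨h0, hv, h⟩, fun v i hv h => h3 v ⟨hv, i, h⟩⟩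
    · right
      exact ⟨v, hv, hn, fun v' i j hv' h => h4 v' ⟨hv, hv', i, j, h⟩⟩
  · rintro ⟨h0, h1, h2⟩
    refine ⟨h0, fun h => h1 h.2, ?_⟩
    rcases h2 with ⟨h2, h3⟩ | ⟨v, hv, hn, h4⟩
    · left
      exact ⟨fun v h => h2 v h.2.1 h.2.2, fun v h => by
        obtain ⟨hv, i, h⟩ := h
        exact h3 v i hv h⟩
    · right
      refine ⟨v, ⟨h0, hv, hn⟩, fun v' h => ?_⟩
      obtain ⟨-, hv', i, j, h⟩ := h
      exact h4 v' i j hv' h

end Pool.Agent.H746.BG.ADM2
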